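import Pool.Agent.HAR.Stmts

/-!
Row GLB of the table `har`: one choice of bits for all orders (fair coins, union bound).
-/

namespace Pool.Agent.HAR.H62

open Finset Filter Topology MeasureTheory

noncomputable section

/-- a fair coin -/
def coin : Measure Bool := (PMF.uniformOfFintype Bool).toMeasure

instance : IsProbabilityMeasure coin := by
  unfold coin
  infer_instance

theorem coin_singleton (b : Bool) : coin {b} = 2⁻¹ := by
  unfold coin
  rw [PMF.toMeasure_apply_singleton _ _ (measurableSet_singleton b), PMF.uniformOfFintype_apply]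
  simp

variable {ι : Type}

/-- the probability that the bits on the finitely many places `e a` are `y a` -/
theorem coin_cyl {X : Type} [Fintype X] [DecidableEq ι] (e : X → ι) (he : Function.Injective e)
    (y : X → Bool) :
    Measure.infinitePi (fun _ : ι => coin) {x : ι → Bool | ∀ a, x (e a) = y a}
      = (2⁻¹ : ENNReal) ^ Fintype.card X := by
  classical
  by_cases hX : Nonempty X
  swap
  · rw [not_nonempty_iff] at hX
    have h1 : {x : ι → Bool | ∀ a, x (e a) = y a} = Set.univ := by
      ext x
      simp
    rw [h1, measure_univ, Fintype.card_eq_zero, pow_zero]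
  let t : ι → Set Bool := fun i => {y (Function.invFun e i)}
  have h1 : {x : ι → Bool | ∀ a, x (e a) = y a} = Set.pi ((univ.image e : Finset ι) : Set ι) t := by
    ext x
    simp only [Set.mem_setOf_eq, Set.mem_pi, coe_image, coe_univ, Set.image_univ, Set.mem_range,
      forall_exists_index, forall_apply_eq_imp_iff, t, Set.mem_singleton_iff,
      Function.leftInverse_invFun he _]
  rw [h1, Measure.infinitePi_pi _ (fun i _ => measurableSet_singleton _)]
  rw [Finset.prod_congr rfl (fun i _ => coin_singleton _), Finset.prod_const,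
    Finset.card_image_of_injective _ he, Finset.card_univ]

theorem glb : GlbStmt := by
  classical
  intro ι X _ e Z p he hp0 hps hp1 hpr
  set μ : Measure (ι → Bool) := Measure.infinitePi (fun _ : ι => coin) with hμ
  have hbad : ∀ n, μ {x : ι → Bool | ¬ Z n fun a => x (e n a)} ≤ ENNReal.ofReal (p n) := by
    intro n
    have : Fintype (X n) := Fintype.ofFinite _
    set S : Finset (X n → Bool) := univ.filter fun y => ¬ Z n y with hS
    have h1 : {x : ι → Bool | ¬ Z n fun a => x (e n a)}
        ⊆ ⋃ y ∈ S, {x : ι → Bool | ∀ a, x (e n a) = y a} := by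
      intro x hx
      rw [Set.mem_iUnion₂]
      exact ⟨fun a => x (e n a), by simpa [hS] using hx, fun a => rfl⟩
    refine (measure_mono h1).trans ((measure_biUnion_finset_le _ _).trans ?_)
    rw [Finset.sum_congr rfl (fun y _ => coin_cyl (e n) (he n) y), Finset.sum_const, nsmul_eq_mul]
    have h2 : pr (fun y : X n → Bool => ¬ Z n y) = S.card * (2⁻¹ : ℝ) ^ Fintype.card (X n) := by
      unfold pr
      rw [Nat.card_eq_fintype_card, Nat.card_eq_fintype_card, Fintype.card_subtype, ← hS,
        Fintype.card_fun, Fintype.card_bool, Nat.cast_pow, div_eq_mul_inv, inv_pow]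
      norm_num
    have h3 : (S.card : ENNReal) * (2⁻¹ : ENNReal) ^ Fintype.card (X n)
        = ENNReal.ofReal (S.card * (2⁻¹ : ℝ) ^ Fintype.card (X n)) := by
      rw [ENNReal.ofReal_mul (Nat.cast_nonneg _), ENNReal.ofReal_natCast,
        ENNReal.ofReal_pow (by norm_num), ENNReal.ofReal_inv_of_pos (by norm_num)]
      norm_num
    rw [h3, ← h2]
    exact ENNReal.ofReal_le_ofReal (hpr n)
  have hU : μ (⋃ n, {x : ι → Bool | ¬ Z n fun a => x (e n a)}) < 1 := by
    refine lt_of_le_of_lt ((measure_iUnion_le _).trans (ENNReal.tsum_le_tsum hbad)) ?_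
    rw [← ENNReal.ofReal_tsum_of_nonneg hp0 hps]
    rw [← ENNReal.ofReal_one]
    exact (ENNReal.ofReal_lt_ofReal_iff one_pos).2 hp1
  by_contra hcon
  push Not at hcon
  have hall : (⋃ n, {x : ι → Bool | ¬ Z n fun a => x (e n a)}) = Set.univ := by
    refine Set.eq_univ_of_forall fun x => ?_
    obtain ⟨n, hn⟩ := hcon x
    exact Set.mem_iUnion.2 ⟨n, hn⟩
  rw [hall, measure_univ] at hU
  exact lt_irrefl _ hU

end

end Pool.Agent.HAR.H62
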